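import Pool.Agent.ASE.Stmts7

/-!
# Squad ASE, row EIV: invariance of the sums over the block under `E₀`
-/

open scoped BigOperators

set_option autoImplicit false

noncomputable section

namespace Pool.Agent.PP.SE.H20

open Pool.Agent.Helper51_AWC Pool.Agent.Helper79_WRA Pool.Agent.PP Pool.Agent.PP.KF
open Pool.Agent.PP.K9 Pool.Agent.PP.K9.H97 Pool.Agent.PP.H75 Pool.Agent.PP.T3 Pool.Agent.PP.SO
open Pool.Agent.PP.SD Pool.Agent.PP.SE

attribute [local instance] Ideal.Quotient.field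

/-- the stabilisers of `c` and `σ c` have the same order -/
theorem kE_apply {V₀ : Type} [CommGroup V₀] (E₀ : Subgroup (MulAut V₀)) (σ : MulAut V₀)
    (hσ : σ ∈ E₀) (c : V₀) : kE E₀ (σ c) = kE E₀ c := by
  unfold kE
  have h1 : Es E₀ (σ c) = (Es E₀ c).map (MulAut.conj σ).toMonoidHom := by
    ext τ
    rw [Subgroup.mem_map]
    constructor
    · rintro ⟨h1, h2⟩
      refine ⟨σ⁻¹ * τ * σ, ⟨E₀.mul_mem (E₀.mul_mem (E₀.inv_mem hσ) h1) hσ, ?_⟩, ?_⟩
      · rw [MulAut.mul_apply, MulAut.mul_apply, h2, MulAut.inv_apply_self]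
      · show σ * (σ⁻¹ * τ * σ) * σ⁻¹ = τ
        group
    · rintro ⟨ρ, ⟨h1, h2⟩, rfl⟩
      refine ⟨E₀.mul_mem (E₀.mul_mem hσ h1) (E₀.inv_mem hσ), ?_⟩
      show (σ * ρ * σ⁻¹) (σ c) = σ c
      rw [MulAut.mul_apply, MulAut.mul_apply, MulAut.inv_apply_self, h2]
  rw [h1]
  exact Nat.card_congr (Subgroup.equivMapOfInjective _ _ (MulAut.conj σ).injective).symm.toEquiv

theorem eiv (hACB : AcbStmt) (hCZB : CzbStmt) (hFMB : FmbStmt) (hMPB : MpbStmt) : EivStmt := by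
  intro ℓ _ M _ hM hℓ V₀ G _ _ _ _ E₀ hF B hB D hD σ hσ
  obtain ⟨-, hac⟩ := hACB ℓ M hM hℓ V₀ G E₀ hF B hB
  have hbot : mp σ (⊥ : Subgroup V₀) = ⊥ := (hMPB V₀ σ σ ⊥ ⊥).2.2.2.2.2.2.2.2.1
  constructor
  · intro c
    obtain ⟨hcz, -⟩ := hCZB ℓ M hM hℓ V₀ G E₀ hF B hB ⊥
    obtain ⟨-, -, -, -, hfc, -⟩ := hac ⊥ σ hσ
    have h1 := hfc c
    rw [hbot] at h1
    have ht : ∀ t : G, t ∈ B.C ⊥ := by
      intro t
      unfold Bk.C
      rw [Subgroup.map_bot, Subgroup.mem_centralizer_iff]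
      intro h hh
      have : h = 1 := by
        rw [SetLike.mem_coe, Subgroup.mem_bot] at hh
        exact hh
      rw [this, one_mul, mul_one]
    have h2 : fc B ⊥ (σ c) = fc B ⊥ c := by
      rw [← h1]
      funext g
      show fc B ⊥ c ((tt B σ)⁻¹ * g * tt B σ) = fc B ⊥ c g
      have h3 := (hcz c).cls (tt B σ)⁻¹ (ht _) g
      rwa [inv_inv] at h3
    funext g
    unfold mnl
    rw [if_pos bot_le, if_pos bot_le, kE_apply E₀ σ hσ c, h2]
  · intro a ha κ hκ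
    have hl1 : ℓ ≠ 1 := (Fact.out : ℓ.Prime).one_lt.ne'
    have ha0 : a ≠ ⊥ := by
      intro h
      have h1 := ha.1
      rw [h, Subgroup.card_bot] at h1
      exact hl1 h1.symm
    have hma0 : mp σ a ≠ ⊥ := by
      intro h
      have h1 := (hMPB V₀ σ σ a a).2.2.1
      rw [h, Subgroup.card_bot, ha.1] at h1
      exact hl1 h1.symm
    obtain ⟨-, -, -, h4, -⟩ := hFMB ℓ M hM hℓ V₀ G E₀ hF B hB D hD a ha0
    have h5 := (h4 σ hσ).2 κ hκ
    obtain ⟨-, -, -, -, -, -, hcard, -⟩ := hac a σ hσ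
    funext g
    unfold etl
    rw [if_neg (Ne.symm hma0), if_neg (Ne.symm ha0), if_pos rfl, if_pos rfl, hcard]
    congr 1
    rw [← h5]
    have _i : Fintype G := Fintype.ofFinite G
    rw [finsum_eq_sum_of_fintype, finsum_eq_sum_of_fintype]
    refine Fintype.sum_equiv (Equiv.mulRight (tt B σ)) _ _ fun z => ?_
    show tk B κ (D.et a) ((tt B σ)⁻¹ * (z⁻¹ * g * z) * tt B σ) =
      tk B κ (D.et a) ((z * tt B σ)⁻¹ * g * (z * tt B σ))
    congr 1
    group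

end Pool.Agent.PP.SE.H20
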