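import Pool.Agent.ASE.Stmts3

/-!
# Squad ASE, row HKF: the value of `HK` for `aL ≠ ⊥`
-/

set_option autoImplicit false

open scoped BigOperators

noncomputable section

namespace Pool.Agent.PP.SE.H20

open Pool.Agent.Helper51_AWC Pool.Agent.Helper79_WRA Pool.Agent.PP Pool.Agent.PP.KF
open Pool.Agent.PP.K9 Pool.Agent.PP.K9.H97 Pool.Agent.PP.H75 Pool.Agent.PP.T3 Pool.Agent.PP.SO
open Pool.Agent.PP.SD Pool.Agent.PP.SE

attribute [local instance] Ideal.Quotient.field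

section lin

variable {V₀ G : Type} [CommGroup V₀] [Group G] [Finite G] {M : Ideal (integralClosure ℤ ℂ)}
  [M.IsMaximal]

theorem HY_add (B : Bk (FF M) V₀ G) (m : ℕ) (A : Subgroup V₀) (a b : G → ℂ)
    (T : Set (V₀ × ℕ)) : HY B m A (fun g => a g + b g) T = HY B m A a T + HY B m A b T := by
  have := Fintype.ofFinite G
  unfold HY
  simp only [finsum_eq_sum_of_fintype, add_mul, Finset.sum_add_distrib, mul_add]

theorem HY_smul (B : Bk (FF M) V₀ G) (m : ℕ) (A : Subgroup V₀) (z : ℂ) (a : G → ℂ)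
    (T : Set (V₀ × ℕ)) : HY B m A (fun g => z * a g) T = z * HY B m A a T := by
  have := Fintype.ofFinite G
  unfold HY
  simp only [finsum_eq_sum_of_fintype, mul_assoc, ← Finset.mul_sum]
  ring

theorem HY_zero (B : Bk (FF M) V₀ G) (m : ℕ) (A : Subgroup V₀)
    (T : Set (V₀ × ℕ)) : HY B m A (fun _ => 0) T = 0 := by
  have := Fintype.ofFinite G
  unfold HY
  simp only [finsum_eq_sum_of_fintype, zero_mul, Finset.sum_const_zero, mul_zero]

end lin

theorem closure_TL {V₀ : Type} [CommGroup V₀] {n : ℕ} (κ : V₀) (L : Set (SO.SS n V₀)) :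
    Subgroup.closure {α | ∃ t ∈ TL κ L, t.1 = α} = aL κ L := by
  unfold aL
  congr 1
  ext α
  constructor
  · rintro ⟨t, ⟨s, hs, rfl⟩, rfl⟩
    exact ⟨s, hs, rfl⟩
  · rintro ⟨s, hs, rfl⟩
    exact ⟨_, ⟨s, hs, rfl⟩, rfl⟩

open Classical in
theorem hkf (hHXY : HxyStmt) (hHYF : HyfStmt) (hHYE : HyeStmt) (hPRB : PrbStmt) : HkfStmt := by
  intro ℓ _ M _ hM hl2 V₀ G _ _ _ _ E₀ hFq B hB D hD n m hPE κ L hA
  have hSb : Sb ℓ M E₀ B := hB.toSb
  obtain ⟨-, h2, -⟩ := hHXY ℓ M hM V₀ G E₀ hFq B hSb n m hPE L κ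
  have hF := hHYF ℓ M hM hl2 V₀ G E₀ hFq B hB D hD n m hPE κ L hA
  obtain ⟨p1, p2, p3, p4, p5, p6, p7, p8, p9, p10⟩ := hPRB ℓ V₀ E₀ hFq (aL κ L)
  rw [h2, ← hF]
  by_cases hk : κ ∈ aL κ L
  · rw [if_pos hk, if_neg (fun h => h.1 hk), add_zero]
    have e1 : (fm ℓ E₀ B D (aL κ L) κ) = fun g => (nS E₀ (aL κ L) : ℂ) * fc B (aL κ L) κ g := by
      funext g
      unfold fm
      rw [if_pos hk, if_pos hk, sub_zero]
    rw [e1, HY_smul]
  · rw [if_neg hk, one_mul]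
    have e1 : fc B (aL κ L) κ = fun g => fm ℓ E₀ B D (aL κ L) κ g +
        tk B (pr ℓ E₀ (aL κ L) κ) (D.et (aL κ L)) g := by
      funext g
      unfold fm
      rw [if_neg hk, if_neg hk, one_mul, sub_add_cancel]
    rw [e1, HY_add]
    congr 1
    by_cases hR : aL κ L ∈ RL ℓ E₀
    · rw [if_pos ⟨hk, hR⟩]
      exact hHYE ℓ M hM hl2 V₀ G E₀ hFq B hB D hD n m hPE (aL κ L) hR _ (p5 hR κ) (TL κ L)
        (closure_TL κ L)
    · rw [if_neg (fun h => hR h.2)]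
      have hn : nS E₀ (aL κ L) = 1 := ((p7 hA).1).resolve_right hR
      have h0 := (hD.f1 (aL κ L) hA hn).1
      have e2 : tk B (pr ℓ E₀ (aL κ L) κ) (D.et (aL κ L)) = fun _ => 0 := by
        funext g
        unfold tk
        rw [h0]
        rfl
      rw [e2, HY_zero]

end Pool.Agent.PP.SE.H20
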