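import Pool.Agent.ASE.Stmts2b
import Pool.Agent.Helper35_ASO.CNG
import Pool.Agent.Helper82_ASO.GPR
import Pool.Agent.Helper3_ASO.MUL

/-!
# Squad ASE, row RNB: `d5`, `h1`, `u1` for `Rw E₀ W`
-/

open scoped BigOperators

set_option autoImplicit false

noncomputable section

namespace Pool.Agent.PP.SE.H20

open Pool.Agent.Helper51_AWC Pool.Agent.Helper79_WRA Pool.Agent.PP Pool.Agent.PP.KF
open Pool.Agent.PP.K9 Pool.Agent.PP.K9.H97 Pool.Agent.PP.H75 Pool.Agent.PP.T3 Pool.Agent.PP.SO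
open Pool.Agent.PP.SD Pool.Agent.PP.SE

attribute [local instance] Ideal.Quotient.field

section blk

variable {V₀ G : Type} [CommGroup V₀] [Group G] [Finite G] {ℓ : ℕ}
  {M : Ideal (integralClosure ℤ ℂ)} [M.IsMaximal] {E₀ : Subgroup (MulAut V₀)}
  {B : Bk (FF M) V₀ G}

/-- `fc W 1` is the idempotent -/
theorem rnb_fc_one (B : Bk (FF M) V₀ G) (W : Subgroup V₀) : fc B W 1 = bh B W := by
  funext g
  have h1 : W ⊔ Subgroup.zpowers (1 : V₀) = W := by
    rw [Subgroup.zpowers_one_eq_bot, sup_bot_eq]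
  unfold fc
  rw [h1]
  have := Fintype.ofFinite (B.C W)
  have h2 : ∀ z : B.C W, bh B W ((B.i 1)⁻¹ * ((z : G)⁻¹ * g * z)) = bh B W g := by
    intro z
    rw [map_one, inv_one, one_mul]
    by_cases hg : g ∈ B.C W
    · have h3 := SO.H35.bh_cl B W ⟨g, hg⟩ z⁻¹
      have h4 : ((z⁻¹ * ⟨g, hg⟩ * z⁻¹⁻¹ : B.C W) : G) = (z : G)⁻¹ * g * z := by
        show (z : G)⁻¹ * g * ((z : G)⁻¹)⁻¹ = _
        rw [inv_inv]
      rw [h4] at h3
      exact h3
    · rw [SO.H35.bh_off B W hg, SO.H35.bh_off B W]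
      intro h
      apply hg
      have h5 := (B.C W).mul_mem ((B.C W).mul_mem z.2 h) ((B.C W).inv_mem z.2)
      have h6 : (z : G) * ((z : G)⁻¹ * g * z) * (z : G)⁻¹ = g := by group
      rwa [h6] at h5
  rw [finsum_congr h2, finsum_eq_sum_of_fintype, Finset.sum_const, Finset.card_univ,
    ← Nat.card_eq_fintype_card, nsmul_eq_mul, ← mul_assoc, inv_mul_cancel₀, one_mul]
  rw [Nat.card_eq_fintype_card]
  exact_mod_cast Fintype.card_ne_zero

/-- `fc W x` vanishes at the regular elements for `x ≠ 1` -/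
theorem rnb_fc_reg [Fact ℓ.Prime] (hM : (ℓ : integralClosure ℤ ℂ) ∈ M) [Finite V₀]
    (hF : Fq ℓ V₀ E₀) (hB : Sb ℓ M E₀ B) (W : Subgroup V₀) {x : V₀} (hx : x ≠ 1) {g : G}
    (hg : Reg ℓ g) : fc B W x g = 0 := by
  unfold fc
  rw [finsum_eq_zero_of_forall_eq_zero, mul_zero]
  intro z
  obtain ⟨u, hu⟩ : ∃ u, u = (B.i x)⁻¹ * ((z : G)⁻¹ * g * z) := ⟨_, rfl⟩
  rw [← hu]
  by_contra hne
  have hur : Reg ℓ u := by
    by_contra h
    exact hne (SO.H35.bh_sing hM hB _ h)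
  have huC : u ∈ B.C (W ⊔ Subgroup.zpowers x) := by
    by_contra h
    exact hne (SO.H35.bh_off B _ h)
  have hcomm : B.i x * u = u * B.i x :=
    (SO.H82.memC B _ u).1 huC x (Subgroup.mem_sup_right (Subgroup.mem_zpowers x))
  have hg2 : (z : G)⁻¹ * g * z = B.i x * u := by
    rw [hu]
    group
  have hp : ℓ.Prime := Fact.out
  -- the order of the conjugate
  have hro : orderOf ((z : G)⁻¹ * g * z) = orderOf g := by
    have h1 : (z : G)⁻¹ * g * z = MulAut.conj (z : G)⁻¹ g := by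
      rw [MulAut.conj_apply, inv_inv]
    rw [h1]
    exact orderOf_injective (MulAut.conj (z : G)⁻¹).toMonoidHom
      (MulAut.conj (z : G)⁻¹).injective g
  have hn : (orderOf g).Coprime ℓ := hg
  have hm : (orderOf u).Coprime ℓ := hur
  have h1 : (B.i x) ^ (orderOf g * orderOf u) = 1 := by
    have h2 : (B.i x * u) ^ (orderOf g) = 1 := by
      rw [← hg2, ← hro]
      exact pow_orderOf_eq_one _
    have h3 : (B.i x * u) ^ (orderOf g * orderOf u) = 1 := by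
      rw [pow_mul, h2, one_pow]
    have hc : Commute (B.i x) u := hcomm
    rw [hc.mul_pow] at h3
    have h4 : u ^ (orderOf g * orderOf u) = 1 := by
      rw [mul_comm, pow_mul, pow_orderOf_eq_one, one_pow]
    rwa [h4, mul_one] at h3
  have h2 : (B.i x) ^ ℓ = 1 := by rw [← map_pow, hF.ex, map_one]
  have h3 : (orderOf g * orderOf u).Coprime ℓ := Nat.Coprime.mul_left hn hm
  have h4 : B.i x = 1 := by
    have h5 : orderOf (B.i x) ∣ 1 := by
      rw [← Nat.Coprime.gcd_eq_one h3]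
      exact Nat.dvd_gcd (orderOf_dvd_of_pow_eq_one h1) (orderOf_dvd_of_pow_eq_one h2)
    exact orderOf_eq_one_iff.1 (Nat.dvd_one.1 h5)
  exact hx (hB.inj (h4.trans (map_one B.i).symm))

/-- the idempotent -/
theorem rnb_bh_one (hB : Sb ℓ M E₀ B) (W : Subgroup V₀) :
    ∑ᶠ s, bh B W s * bh B W s⁻¹ = bh B W 1 := by
  classical
  have h := SO.H82.prod_eq hB (W := W) (W' := W) (w := 1) (fun x => by simp)
  have h1 : H75.cj 1 (B.b W) = B.b W := by
    funext g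
    unfold H75.cj
    simp
  rw [if_pos h1] at h
  rw [← h]
  exact finsum_congr fun s => by simp

end blk

theorem rnb (hNSD : SD.NsdStmt) (hDGD : SD.DgdStmt) : RnbStmt := by
  classical
  intro ℓ _ M _ hM hℓ V₀ G _ _ _ _ E₀ hF B hB W hW D hD
  have hp : ℓ.Prime := Fact.out
  obtain ⟨n1, n2, n3, n4, n5, n6, n7⟩ := hNSD ℓ M hM hℓ V₀ G E₀ hF B hB W hW
  obtain ⟨g1, g2⟩ := hDGD ℓ M hM V₀ G E₀ hF B hB W hW
  have hdeg : ∀ χ ∈ Ch B W, χ 1 = B.D W := fun χ hχ => (hB.dg W hW).2 _ hχ.2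
  have hDpos : 0 < B.D W := (hB.dg W hW).1
  have hD0 : (B.D W : ℂ) ≠ 0 := by exact_mod_cast hDpos.ne'
  have hl0 : (ℓ : ℂ) ≠ 0 := by exact_mod_cast hp.ne_zero
  have hC0 : (Nat.card (B.C W) : ℂ) ≠ 0 := by
    have : 0 < Nat.card (B.C W) := Nat.card_pos
    exact_mod_cast this.ne'
  have hnS : nS E₀ W = 1 := by
    unfold nS
    have h1 : St E₀ W = ⊥ := by
      rw [eq_bot_iff]
      intro σ hσ
      rw [Subgroup.mem_bot]
      exact hW.2 σ hσ.1 hσ.2
    rw [h1, Subgroup.card_bot]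
  have hlam : ∀ χ ∈ Ch B W, lam B W χ 1 = 1 := fun χ hχ => (n1.mapsTo hχ).1
  have hS : (B.S W : ℂ) * B.S W = 1 := by
    rcases hB.sg W hW with h | h <;> rw [h] <;> norm_num
  refine ⟨fun χ hχ ψ hψ => ?_, fun χ hχ => ?_, ?_⟩
  · -- values at the regular elements
    obtain ⟨c, hc⟩ : ∃ c : ℂ, c = (Nat.card (B.C W) : ℂ) / (ℓ ^ 2 * B.D W) := ⟨_, rfl⟩
    have hval : ∀ χ ∈ Ch B W, ∀ h ∈ B.C W, Reg ℓ h → χ h = c * bh B W h⁻¹ := by
      intro χ hχ h hh hr
      rw [n4 χ hχ h hh, ← hc]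
      congr 1
      have hr' : Reg ℓ h⁻¹ := by
        unfold Reg at hr ⊢
        rwa [orderOf_inv]
      rw [finsum_eq_single _ (1 : V₀)]
      · rw [hlam χ hχ, rnb_fc_one]
        have : ux B.U W (1 : V₀) = 1 := by
          unfold ux
          rw [if_pos W.one_mem]
        rw [this]
        simp
      · intro x hx
        rw [rnb_fc_reg hM hF hB.toSb W hx hr', mul_zero]
    have hconj : ∀ h ∈ B.C W, Reg ℓ h → starRingEnd ℂ (ψ h) = c * bh B W h := by
      intro h hh hr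
      have h1 : starRingEnd ℂ (ψ h) = ψ h⁻¹ := PP.H94.irr_star hψ.2.1 (⟨h, hh⟩ : B.C W)
      rw [h1, hval ψ hψ h⁻¹ ((B.C W).inv_mem hh) (by
        unfold Reg at hr ⊢
        rwa [orderOf_inv]), inv_inv]
    have hsum : ∑ᶠ s ∈ {s : G | s ∈ B.C W ∧ Reg ℓ s}, χ s * starRingEnd ℂ (ψ s) =
        c ^ 2 * bh B W 1 := by
      rw [← rnb_bh_one hB.toSb W]
      have h1 : ∀ s, (∑ᶠ (_ : s ∈ {s : G | s ∈ B.C W ∧ Reg ℓ s}), χ s * starRingEnd ℂ (ψ s)) =
          c ^ 2 * (bh B W s * bh B W s⁻¹) := by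
        intro s
        by_cases hs : s ∈ {s : G | s ∈ B.C W ∧ Reg ℓ s}
        · rw [finsum_eq_if, if_pos hs, hval χ hχ s hs.1 hs.2, hconj s hs.1 hs.2]
          ring
        · rw [finsum_eq_if, if_neg hs]
          have h2 : bh B W s = 0 := by
            by_cases h3 : s ∈ B.C W
            · exact SO.H35.bh_sing hM hB.toSb W fun h4 => hs ⟨h3, h4⟩
            · exact SO.H35.bh_off B W h3
          rw [h2, zero_mul, mul_zero]
      rw [finsum_congr h1]
      have := Fintype.ofFinite G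
      rw [finsum_eq_sum_of_fintype, finsum_eq_sum_of_fintype, Finset.mul_sum]
    rw [hsum, hD.dR, hD.dD χ hχ, hD.dD ψ hψ, hlam χ hχ, hlam ψ hψ, hnS, n7, hc]
    have e1 : starRingEnd ℂ ((B.S W : ℂ) * 1) = B.S W := by
      rw [mul_one]
      exact map_intCast _ _
    rw [e1, mul_one, hS]
    field_simp
    ring
  · rw [hdeg χ hχ]
    exact ⟨g1, g2⟩
  · rw [hD.dU]
    exact hB.un W hW

end Pool.Agent.PP.SE.H20
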